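import Pool.Agent.H972.FH.CharP

/-!
# Multi-point Fisher–Hartwig asymptotics for the characteristic polynomial of the spherical ensemble

Full answer (affirmative) to Q2: all `k`, all distinct `z₁, …, zₖ ∈ ℂ` and all complex
`γ₁, …, γₖ` with real parts `> -2` whose sum `σ` has real part `< 2`.

The proof applies the multi-point theorem on the sphere (Pool/Agent/H972/FH, the hand-in for
MP_8d6f76_pr) to the `k + 1` points `z₁, …, zₖ, ∞` with charges `γ₁, …, γₖ, -σ`:
`log |P_n(z)| = L_n(g_z) - L_n(g_∞) + (n/2) log (1 + |z|²)`.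
-/

set_option autoImplicit false

open MeasureTheory Filter Topology

namespace Pool.Agent.Results.MP_43990b_pr.MultiPoint

open Pool.Agent.H972.FHS

/-- Multi-point Fisher–Hartwig asymptotics for the spherical ensemble: `∏ᵢ |P_n(zᵢ)|^γᵢ` is
integrable for every `n`, and the ratio of its expectation to `N_n` tends to `1`. -/
theorem result (k : ℕ) (z : Fin k → ℂ) (hz : Function.Injective z) (γ : Fin k → ℂ)
    (hγ : ∀ i, -2 < (γ i).re) (hσ : (∑ i, γ i).re < 2) :
    (∀ n : ℕ, Integrable (fun x => ∏ i, absPow (charP x (z i)) (γ i)) (pairLaw n)) ∧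
    Tendsto (fun n : ℕ => (∫ x, ∏ i, absPow (charP x (z i)) (γ i) ∂(pairLaw n)) /
      mainTermP z γ n) atTop (𝓝 1) :=
  ⟨fun n => cp_int n hz hγ hσ, cp_tendsto hz hγ hσ⟩

end Pool.Agent.Results.MP_43990b_pr.MultiPoint
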